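import Pool.Agent.W555.EQ.Stm

/-! Project EQ (helper555): the dependence lemma (StDep). -/

set_option autoImplicit false

namespace Pool.Agent.W539.EQ.Dep

open Pool.Agent.W555.EQ MvPolynomial

theorem core {A : Type} [CommRing A] [IsDomain A] (φ : A →+* A) (J : A) (hJ : J ≠ 0) :
    ∀ n : ℕ, ∀ P : Polynomial A, P.natDegree = n → P ≠ 0 → Polynomial.eval₂ φ J P = 0 →
      ∃ R : A, R ≠ 0 ∧ J ∣ φ R := by
  intro n
  induction n using Nat.strong_induction_on with
  | _ n ih =>
    intro P hn hP h0
    have hdec := Polynomial.divX_mul_X_add P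
    by_cases hc : P.coeff 0 = 0
    · rw [hc, map_zero, add_zero] at hdec
      have hd0 : P.divX ≠ 0 := by
        intro h
        rw [h, zero_mul] at hdec
        exact hP hdec.symm
      have hev : Polynomial.eval₂ φ J P.divX = 0 := by
        rw [← hdec, Polynomial.eval₂_mul, Polynomial.eval₂_X] at h0
        exact (mul_eq_zero.mp h0).resolve_right hJ
      have hdeg : P.natDegree = P.divX.natDegree + 1 := by
        conv_lhs => rw [← hdec]
        exact Polynomial.natDegree_mul_X hd0
      exact ih P.divX.natDegree (by omega) P.divX rfl hd0 hev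
    · refine ⟨P.coeff 0, hc, ?_⟩
      rw [← hdec, Polynomial.eval₂_add, Polynomial.eval₂_mul, Polynomial.eval₂_X,
        Polynomial.eval₂_C] at h0
      refine ⟨- Polynomial.eval₂ φ J P.divX, ?_⟩
      linear_combination h0

theorem dep : StDep := by
  intro I _ f J hJ
  let g : Option I → MvPolynomial I ℂ := fun o => o.elim J f
  have hdep : ¬ AlgebraicIndependent ℂ g := by
    intro h
    have h1 := h.cardinalMk_le_trdeg
    rw [MvPolynomial.trdeg_of_isDomain] at h1
    simp at h1
  have hinj : ∃ Q : MvPolynomial (Option I) ℂ, Q ≠ 0 ∧ aeval g Q = 0 := by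
    by_contra hc
    push Not at hc
    apply hdep
    rw [algebraicIndependent_iff]
    intro p hp
    by_contra hne
    exact hc p hne hp
  obtain ⟨Q, hQ, hQ0⟩ := hinj
  have key : ∀ Q : MvPolynomial (Option I) ℂ, aeval g Q =
      Polynomial.eval₂ (aeval f : MvPolynomial I ℂ →ₐ[ℂ] MvPolynomial I ℂ).toRingHom J
        (optionEquivLeft ℂ I Q) := by
    intro Q
    have : (aeval g : MvPolynomial (Option I) ℂ →ₐ[ℂ] MvPolynomial I ℂ).toRingHom =
        (Polynomial.eval₂RingHom
          (aeval f : MvPolynomial I ℂ →ₐ[ℂ] MvPolynomial I ℂ).toRingHom J).comp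
          (optionEquivLeft ℂ I).toRingEquiv.toRingHom := by
      apply MvPolynomial.ringHom_ext
      · intro r
        simp
      · intro o
        cases o with
        | none => simp [g]
        | some i => simp [g]
    exact congrArg (fun h => h Q) this
  rw [key] at hQ0
  exact core _ J hJ _ _ rfl (by
    intro h
    exact hQ ((optionEquivLeft ℂ I).map_eq_zero_iff.mp h)) hQ0

end Pool.Agent.W539.EQ.Dep
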